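import Pool.Agent.Work.MP_b44cb1_al.Full.Base

/-!
# MT/Dk  (size M)  : the kernels `D_j` in a minimal tower

`T : MTow P p n`. `Dk P j = Gs P j ⊓ C(P j)`, `Kr P j = P j ⊓ C(P (j+1))`.
* `dk_split` (`j + 1 < n`): let `g ∈ Dk P (j+1) ≤ Gs P (j+1) = Gs P j ⊔ P j`. `Gs P j` normalises `P j`, so
  `g = x v`, `x ∈ Gs P j`, `v ∈ P j`. For `w ∈ P j` the commutator `⁅g, w⁆` lies in `P j` and in
  `Dk P (j+1)` (which is normalised by `Gs P (j+1)`, `WTow.nz_dk`), i.e. in `P j ⊓ C(P (j+1)) = Kr P j ≤ Fr (P j)`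
  (`T.kfr`). As `⁅v, w⁆ ∈ Fr (P j)` also `x w x⁻¹ w⁻¹ ∈ Fr (P j)` for all `w ∈ P j`. By KIT lemma K5
  (hypothesis `h5`; `p j ∤ |Gs P j|`, so the order of `x` is prime to `p j`) `x` centralises `P j`:
  `x ∈ Dk P j`, and `x` commutes with `v ∈ P j`. The orders of `x` and `v` are coprime (`v` is a
  `p j`-element, `x ∈ Gs P j`), so `x` and `v` are powers of `g = x v` (`Commute`, orderOf coprime: choose `k` with
  `k ≡ 1 mod orderOf x`, `k ≡ 0 mod orderOf v`), hence `x, v ∈ Dk P (j+1)`, and `v ∈ P j ⊓ C(P (j+1)) = Kr P j`.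
* `inf_dk_le` (`i < j < n`): `P i ⊓ Dk P j ≤ Kr P i`. Induction on `j`: for `j = i + 1` clear (`Dk P (i+1)` centralises
  `P (i+1)`). Step: `g ∈ P i ⊓ Dk P (j+1)`, `i < j`: `g = x v` by `dk_split`, `v ∈ Kr P j ≤ P j`,
  `v = x⁻¹ g ∈ Gs P j` (`P i ≤ Gs P j`), so the order of `v` divides `|Gs P j|` and a power of `p j`: `v = 1`,
  `g = x ∈ Dk P j`.
* `dk_nil`: `Dk P j` is nilpotent for `j < n`. Induction: `Dk P 0 = ⊥`. `Dk P (j+1)` is generated by the
  subgroups `Kr P j` (a `p j`-group) and `Dk P j ⊓ Dk P (j+1)` (nilpotent as a subgroup of `Dk P j`), which commute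
  elementwise (`dk_comm`); a product of two commuting nilpotent subgroups is nilpotent
  (image of `A × B` under a homomorphism, `Group.IsNilpotent` of a product and of a quotient).
-/

set_option autoImplicit false

namespace Pool.Agent.Work.MP_b44cb1_al

open Subgroup
open scoped commutatorElement

/-- KIT lemma K5 for the group `G`. -/
def K5p (G : Type*) [Group G] : Prop :=
  ∀ (p : ℕ) (P : Subgroup G) (g : G), p.Prime → IsPGroup p P → (∀ x ∈ P, g * x * g⁻¹ ∈ P) →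
    ¬ p ∣ orderOf g → (∀ x ∈ P, g * x * g⁻¹ * x⁻¹ ∈ Fr p P) → ∀ x ∈ P, g * x = x * g

variable {G : Type*} [Group G] [Finite G] {P : ℕ → Subgroup G} {p : ℕ → ℕ} {n : ℕ}

private theorem mem_sup_nz {H : Type*} [Group H] {A B : Subgroup H} (h : Nz A B) {g : H}
    (hg : g ∈ A ⊔ B) : ∃ a ∈ A, ∃ b ∈ B, g = a * b := by
  let K : Subgroup H :=
    { carrier := {g | ∃ a ∈ A, ∃ b ∈ B, g = a * b}
      one_mem' := ⟨1, one_mem _, 1, one_mem _, by simp⟩
      mul_mem' := by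
        rintro _ _ ⟨a, ha, b, hb, rfl⟩ ⟨a', ha', b', hb', rfl⟩
        refine ⟨a * a', mul_mem ha ha', (a'⁻¹ * b * a') * b', mul_mem ?_ hb', by group⟩
        have := h a'⁻¹ (inv_mem ha') b hb
        rwa [inv_inv] at this
      inv_mem' := by
        rintro _ ⟨a, ha, b, hb, rfl⟩
        exact ⟨a⁻¹, inv_mem ha, a * b⁻¹ * a⁻¹, h a ha _ (inv_mem hb), by group⟩ }
  have hK : A ⊔ B ≤ K := by
    refine sup_le (fun a ha => ⟨a, ha, 1, one_mem _, by simp⟩)
      (fun b hb => ⟨1, one_mem _, b, hb, by simp⟩)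
  exact hK hg

private theorem inf_gs_bot (T : WTow P p n) {j : ℕ} (hj : j < n) {v : G} (hv : v ∈ P j)
    (hv' : v ∈ Gs P j) : v = 1 := by
  by_contra hne
  have hp : Fact (p j).Prime := ⟨T.prime j hj⟩
  obtain ⟨k, hk⟩ := (IsPGroup.iff_orderOf.1 (T.pgrp j hj)) ⟨v, hv⟩
  rw [Subgroup.orderOf_mk] at hk
  have h1 : orderOf v ∣ Nat.card (Gs P j) := Subgroup.orderOf_dvd_natCard _ hv'
  have hk0 : k ≠ 0 := by
    rintro rfl
    rw [pow_zero, orderOf_eq_one_iff] at hk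
    exact hne hk
  apply T.cop j hj
  refine Dvd.dvd.trans ?_ h1
  rw [hk]
  exact dvd_pow_self _ hk0

theorem WTow.mem_dk (T : WTow P p n) (h5 : K5p G) {j : ℕ} (hj : j < n) {x : G}
    (hx : x ∈ Gs P j) (h : ∀ v ∈ P j, x * v * x⁻¹ * v⁻¹ ∈ Fr (p j) (P j)) : x ∈ Dk P j := by
  refine ⟨hx, mem_centralizer_iff.2 ?_⟩
  intro v hv
  refine (h5 (p j) (P j) x (T.prime j hj) (T.pgrp j hj) (fun v hv => T.norm j hj x hx v hv) ?_ h
    v hv).symm
  intro hd
  exact T.cop j hj (hd.trans (Subgroup.orderOf_dvd_natCard _ hx))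

theorem MTow.dk_split (T : MTow P p n) (h5 : K5p G) {j : ℕ} (hj : j + 1 < n) {g : G}
    (hg : g ∈ Dk P (j + 1)) : ∃ x ∈ Dk P j ⊓ Dk P (j + 1), ∃ v ∈ Kr P j, g = x * v := by
  have hj' : j < n := by omega
  have hgG : g ∈ Gs P (j + 1) := dk_le P _ hg
  obtain ⟨x, hx, v, hv, rfl⟩ := mem_sup_nz (T.toWTow.norm j hj') (by rw [← gs_succ]; exact hgG)
  have hcomm : ∀ w ∈ P j, (x * v) * w * (x * v)⁻¹ * w⁻¹ ∈ Fr (p j) (P j) := by
    intro w hw
    apply T.kfr j hj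
    have h1 : (x * v) * w * (x * v)⁻¹ * w⁻¹ ∈ P j :=
      mul_mem (T.toWTow.gs_nz_self hj' _ hgG w hw) (inv_mem hw)
    have h2 : (x * v) * w * (x * v)⁻¹ * w⁻¹ ∈ Dk P (j + 1) := by
      have h3 := T.toWTow.nz_dk hj w (le_gs' P (Nat.lt_succ_self j) hw) _ (inv_mem hg)
      have e : (x * v) * w * (x * v)⁻¹ * w⁻¹ = (x * v) * (w * (x * v)⁻¹ * w⁻¹) := by group
      rw [e]
      exact mul_mem hg h3
    exact ⟨h1, h2.2⟩
  have hxD : x ∈ Dk P j := by
    apply T.toWTow.mem_dk h5 hj' hx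
    intro w hw
    have hw' : v⁻¹ * w * v ∈ P j := mul_mem (mul_mem (inv_mem hv) hw) hv
    have h1 := hcomm _ hw'
    have h2 : ⁅v⁻¹, w⁆ ∈ Fr (p j) (P j) := comm_mem_fr (inv_mem hv) hw
    have e : x * w * x⁻¹ * w⁻¹ =
        ((x * v) * (v⁻¹ * w * v) * (x * v)⁻¹ * (v⁻¹ * w * v)⁻¹) * ⁅v⁻¹, w⁆ := by
      rw [commutatorElement_def]
      group
    rw [e]
    exact mul_mem h1 h2
  have hxv : Commute x v := dk_comm hxD hv
  have hp : Fact (p j).Prime := ⟨T.toWTow.prime j hj'⟩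
  have hcop : Nat.Coprime (orderOf x) (orderOf v) := by
    obtain ⟨k, hk⟩ := (IsPGroup.iff_orderOf.1 (T.toWTow.pgrp j hj')) ⟨v, hv⟩
    rw [Subgroup.orderOf_mk] at hk
    rw [hk]
    apply Nat.Coprime.pow_right
    rw [Nat.coprime_comm, Nat.Prime.coprime_iff_not_dvd (T.toWTow.prime j hj')]
    intro hd
    exact T.toWTow.cop j hj' (hd.trans (Subgroup.orderOf_dvd_natCard _ hx))
  obtain ⟨k, hk1, hk2⟩ := Nat.chineseRemainder hcop 1 0
  have hgk : (x * v) ^ k = x := by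
    rw [hxv.mul_pow]
    have h1 : x ^ k = x := by
      have := (pow_eq_pow_iff_modEq (x := x) (n := k) (m := 1)).2 hk1
      rwa [pow_one] at this
    have h2 : v ^ k = 1 := by
      have := (pow_eq_pow_iff_modEq (x := v) (n := k) (m := 0)).2 hk2
      rwa [pow_zero] at this
    rw [h1, h2, mul_one]
  have hxD' : x ∈ Dk P (j + 1) := by
    rw [← hgk]
    exact pow_mem hg k
  have hvD' : v ∈ Dk P (j + 1) := by
    have e : v = x⁻¹ * (x * v) := by group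
    rw [e]
    exact mul_mem (inv_mem hxD') hg
  exact ⟨x, ⟨hxD, hxD'⟩, v, ⟨hv, hvD'.2⟩, rfl⟩

theorem MTow.inf_dk_le (T : MTow P p n) (h5 : K5p G) {i j : ℕ} (hij : i < j) (hj : j < n) :
    P i ⊓ Dk P j ≤ Kr P i := by
  induction j, hij using Nat.le_induction with
  | base =>
    rintro g ⟨hg, hg'⟩
    exact ⟨hg, hg'.2⟩
  | succ j hij ih =>
    rintro g ⟨hg, hg'⟩
    obtain ⟨x, hx, v, hv, rfl⟩ := T.dk_split h5 hj hg'
    have hv1 : v = 1 := by
      apply inf_gs_bot T.toWTow (by omega : j < n) (kr_le P j hv)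
      have e : v = x⁻¹ * (x * v) := by group
      rw [e]
      exact mul_mem (inv_mem (dk_le P j hx.1)) (le_gs' P hij hg)
    subst hv1
    rw [mul_one] at hg ⊢
    exact ih (by omega) ⟨hg, hx.1⟩

theorem MTow.dk_nil (T : MTow P p n) (h5 : K5p G) {j : ℕ} (hj : j < n) :
    Group.IsNilpotent (Dk P j) := by
  induction j with
  | zero =>
    have h1 : Dk P 0 = ⊥ := by
      rw [eq_bot_iff, ← gs_zero P]
      exact dk_le P 0
    rw [h1]
    infer_instance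
  | succ j ih =>
    have hA : Group.IsNilpotent (Dk P j ⊓ Dk P (j + 1) : Subgroup G) := by
      have := ih (by omega)
      have h2 : Group.IsNilpotent ((Dk P j ⊓ Dk P (j + 1) : Subgroup G).subgroupOf (Dk P j)) :=
        inferInstance
      exact Group.nilpotent_of_mulEquiv (Subgroup.subgroupOfEquivOfLe inf_le_left)
    have hB : Group.IsNilpotent (Kr P j) := by
      have : Fact (p j).Prime := ⟨T.toWTow.prime j (by omega)⟩
      exact ((T.toWTow.pgrp j (by omega)).to_le (kr_le P j)).isNilpotent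
    have hBD : Kr P j ≤ Dk P (j + 1) := fun v hv =>
      ⟨le_gs' P (Nat.lt_succ_self j) (kr_le P j hv), hv.2⟩
    let f : (Dk P j ⊓ Dk P (j + 1) : Subgroup G) × (Kr P j) →* Dk P (j + 1) :=
      MonoidHom.noncommCoprod (Subgroup.inclusion inf_le_right) (Subgroup.inclusion hBD) (by
        rintro ⟨a, ha⟩ ⟨b, hb⟩
        apply Subtype.ext
        exact dk_comm ha.1 (kr_le P j hb))
    apply Group.nilpotent_of_surjective f
    rintro ⟨g, hg⟩
    obtain ⟨x, hx, v, hv, rfl⟩ := T.dk_split h5 hj hg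
    exact ⟨(⟨x, hx⟩, ⟨v, hv⟩), rfl⟩

end Pool.Agent.Work.MP_b44cb1_al
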