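import Pool.Agent.Work.MP_b44cb1_al.Full.Base

/-!
# MT/Spec  (size M)  : special groups

`P` a `p`-group, `A` normalises `P` and `K`, `K ≤ P` normal in `P`, `F := Fr p P`, `⁅P, A⁆ = P` and
`⁅F, A⁆ ≤ K`.
* `spec_cen`: `⁅F, P⁆ ≤ K`. Three subgroup lemma modulo `K` (in the group `L := P ⊔ A`, which normalises
  `K`; pass to `L ⧸ K` and use Mathlib's `Subgroup.commutator_commutator_eq_bot_of_rotate`, or argue with
  elements and the Hall-Witt identity): `⁅⁅A,F⁆,P⁆ ≤ ⁅K,P⁆ ≤ K` and `⁅⁅F,P⁆,A⁆ ≤ ⁅F,A⁆ ≤ K`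
  (`⁅F,P⁆ ≤ F`), hence `⁅F, P⁆ = ⁅F, ⁅P,A⁆⁆ ≤ K`.
* `spec_pow`: for `x, y ∈ P` : `(x y)^p ≡ x^p y^p` modulo `K` (`p` odd). Modulo `K` the commutator `c = ⁅y,x⁆`
  is central in `P` (`c ∈ F`, `spec_cen`), so `(x y)^p ≡ x^p y^p c^(p(p-1)/2)` and `c^p ≡ ⁅y^p, x⁆ ∈ K` as
  `y^p ∈ F` (`spec_cen`); `p ∣ p(p-1)/2`.
* `spec_expo`: `x^p ∈ K` for all `x ∈ P`. The set `{x ∈ P | x^p ∈ K}` is a subgroup `X` by `spec_pow`.
  For `x ∈ P`, `g ∈ A`: `⁅x,g⁆ = x (g x⁻¹ g⁻¹)`, its `p`-th power is `≡ x^p (g x^p g⁻¹)⁻¹ = ⁅x^p, g⁆ ∈ ⁅F,A⁆ ≤ K`.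
  So `P = ⁅P,A⁆ ≤ X`.
Work with congruences `a⁻¹ * b ∈ K` or in the quotient `↥P ⧸ K.subgroupOf P`.
-/

set_option autoImplicit false

namespace Pool.Agent.Work.MP_b44cb1_al

open Subgroup
open scoped commutatorElement

variable {G : Type*} [Group G]

/-- commutators and `subgroupOf` -/
private theorem comm_subgroupOf {L X Y : Subgroup G} (hX : X ≤ L) (hY : Y ≤ L) :
    ⁅X, Y⁆.subgroupOf L = ⁅X.subgroupOf L, Y.subgroupOf L⁆ := by
  apply Subgroup.map_injective L.subtype_injective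
  rw [Subgroup.map_commutator, Subgroup.map_subgroupOf_eq_of_le hX,
    Subgroup.map_subgroupOf_eq_of_le hY, Subgroup.map_subgroupOf_eq_of_le]
  rw [commutator_le]
  intro a ha b hb
  exact mul_mem (mul_mem (mul_mem (hX ha) (hY hb)) (inv_mem (hX ha))) (inv_mem (hY hb))

private theorem comm_le_of_le {L X Y : Subgroup G} (hX : X ≤ L) (hY : Y ≤ L) : ⁅X, Y⁆ ≤ L := by
  rw [commutator_le]
  intro a ha b hb
  exact mul_mem (mul_mem (mul_mem (hX ha) (hY hb)) (inv_mem (hX ha))) (inv_mem (hY hb))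

/-- The three subgroups lemma modulo a normal subgroup `N` of `L`. -/
private theorem three {L N X Y Z : Subgroup G} (hX : X ≤ L) (hY : Y ≤ L) (hZ : Z ≤ L)
    (hNz : Nz L N) (h1 : ⁅⁅Y, Z⁆, X⁆ ≤ N) (h2 : ⁅⁅Z, X⁆, Y⁆ ≤ N) : ⁅⁅X, Y⁆, Z⁆ ≤ N := by
  have hn : (N.subgroupOf L).Normal := hNz.subgroupOf_normal
  let φ : L →* L ⧸ N.subgroupOf L := QuotientGroup.mk' (N.subgroupOf L)
  have key : ∀ W : Subgroup G, W ≤ L → ((W.subgroupOf L).map φ = ⊥ ↔ W ≤ N) := by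
    intro W hW
    rw [Subgroup.map_eq_bot_iff, QuotientGroup.ker_mk']
    constructor
    · intro h w hw
      have h3 : (⟨w, hW hw⟩ : L) ∈ W.subgroupOf L := mem_subgroupOf.2 hw
      exact mem_subgroupOf.1 (h h3)
    · intro h w hw
      exact mem_subgroupOf.2 (h (mem_subgroupOf.1 hw))
  have hbar : ∀ X Y Z : Subgroup G, X ≤ L → Y ≤ L → Z ≤ L →
      ((⁅⁅X, Y⁆, Z⁆.subgroupOf L).map φ =
        ⁅⁅(X.subgroupOf L).map φ, (Y.subgroupOf L).map φ⁆, (Z.subgroupOf L).map φ⁆) := by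
    intro X Y Z hX hY hZ
    rw [comm_subgroupOf (comm_le_of_le hX hY) hZ, comm_subgroupOf hX hY,
      Subgroup.map_commutator, Subgroup.map_commutator]
  rw [← key _ (comm_le_of_le (comm_le_of_le hX hY) hZ), hbar X Y Z hX hY hZ]
  rw [← key _ (comm_le_of_le (comm_le_of_le hY hZ) hX), hbar Y Z X hY hZ hX] at h1
  rw [← key _ (comm_le_of_le (comm_le_of_le hZ hX) hY), hbar Z X Y hZ hX hY] at h2
  exact Subgroup.commutator_commutator_eq_bot_of_rotate h1 h2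

theorem spec_cen {p : ℕ} {P A K : Subgroup G} (hKP : K ≤ P) (hK : Nz P K) (hAK : Nz A K)
    (hAP : Nz A P) (hcomm : ⁅P, A⁆ = P) (hz : ⁅Fr p P, A⁆ ≤ K) : ⁅Fr p P, P⁆ ≤ K := by
  have hL : Nz (P ⊔ A) K := by
    rw [nz_iff] at hK hAK ⊢
    exact sup_le hK hAK
  have h1 : ⁅⁅A, Fr p P⁆, P⁆ ≤ K := by
    rw [commutator_comm A]
    exact (commutator_mono hz le_rfl).trans (comm_le_left hK)
  have h2 : ⁅⁅Fr p P, P⁆, A⁆ ≤ K :=
    (commutator_mono (comm_le_left (nz_fr p (nz_self P))) le_rfl).trans hz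
  have h3 := three (L := P ⊔ A) (N := K) (X := P) (Y := A) (Z := Fr p P) le_sup_left le_sup_right
    ((fr_le p P).trans le_sup_left) hL h1 h2
  rw [hcomm, commutator_comm] at h3
  exact h3

private theorem pow_formula {Q : Type*} [Group Q] {x y c : Q} (hcx : Commute c x)
    (hcy : Commute c y) (h : y * x = c * x * y) (n : ℕ) :
    y ^ n * x = c ^ n * x * y ^ n := by
  induction n with
  | zero => simp
  | succ n ih =>
    have h1 : Commute (c ^ n) y := hcy.pow_left n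
    calc y ^ (n + 1) * x = y * (y ^ n * x) := by rw [pow_succ', mul_assoc]
      _ = y * (c ^ n * x * y ^ n) := by rw [ih]
      _ = (y * c ^ n) * x * y ^ n := by simp only [mul_assoc]
      _ = (c ^ n * y) * x * y ^ n := by rw [h1.eq]
      _ = c ^ n * (y * x) * y ^ n := by simp only [mul_assoc]
      _ = c ^ n * (c * x * y) * y ^ n := by rw [h]
      _ = c ^ (n + 1) * x * y ^ (n + 1) := by
        rw [pow_succ c, pow_succ' y]
        simp only [mul_assoc]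

private theorem mul_pow_formula {Q : Type*} [Group Q] {x y c : Q} (hcx : Commute c x)
    (hcy : Commute c y) (h : y * x = c * x * y) (n : ℕ) :
    (x * y) ^ n = x ^ n * y ^ n * c ^ (∑ i ∈ Finset.range n, i) := by
  induction n with
  | zero => simp
  | succ n ih =>
    have hc1 : ∀ m, Commute (c ^ m) x := fun m => hcx.pow_left m
    have hc2 : ∀ m, Commute (c ^ m) y := fun m => hcy.pow_left m
    set S := ∑ i ∈ Finset.range n, i with hS
    calc (x * y) ^ (n + 1) = x ^ n * y ^ n * c ^ S * (x * y) := by rw [pow_succ, ih]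
      _ = x ^ n * y ^ n * (c ^ S * x) * y := by simp only [mul_assoc]
      _ = x ^ n * y ^ n * (x * c ^ S) * y := by rw [(hc1 S).eq]
      _ = x ^ n * (y ^ n * x) * (c ^ S * y) := by simp only [mul_assoc]
      _ = x ^ n * (c ^ n * x * y ^ n) * (y * c ^ S) := by
        rw [pow_formula hcx hcy h n, (hc2 S).eq]
      _ = x ^ n * (x * c ^ n * y ^ n) * (y * c ^ S) := by rw [(hc1 n).eq]
      _ = x ^ n * x * (c ^ n * y ^ n) * y * c ^ S := by simp only [mul_assoc]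
      _ = x ^ n * x * (y ^ n * c ^ n) * y * c ^ S := by rw [((hc2 n).pow_right n).eq]
      _ = x ^ n * x * y ^ n * (c ^ n * y) * c ^ S := by simp only [mul_assoc]
      _ = x ^ n * x * y ^ n * (y * c ^ n) * c ^ S := by rw [(hc2 n).eq]
      _ = x ^ (n + 1) * y ^ (n + 1) * c ^ (∑ i ∈ Finset.range (n + 1), i) := by
        have e1 : c ^ (∑ i ∈ Finset.range (n + 1), i) = c ^ n * c ^ S := by
          rw [Finset.sum_range_succ, ← hS, add_comm S n, pow_add]
        have e2 : x ^ (n + 1) = x ^ n * x := pow_succ x n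
        have e3 : y ^ (n + 1) = y ^ n * y := pow_succ y n
        rw [e1, e2, e3]
        simp only [mul_assoc]

private theorem mul_pow_prime {Q : Type*} [Group Q] {x y : Q} {p : ℕ} (hp : p.Prime) (hp2 : 2 < p)
    (hcx : Commute ⁅y, x⁆ x) (hcy : Commute ⁅y, x⁆ y) (hyx : Commute (y ^ p) x) :
    (x * y) ^ p = x ^ p * y ^ p := by
  have h : y * x = ⁅y, x⁆ * x * y := by
    rw [commutatorElement_def]
    group
  have h1 := pow_formula hcx hcy h p
  rw [hyx.eq] at h1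
  have h2 : ⁅y, x⁆ ^ p = 1 := by
    have h3 : x * y ^ p = ⁅y, x⁆ ^ p * (x * y ^ p) := by rw [← mul_assoc]; exact h1
    exact right_eq_mul.1 h3
  rw [mul_pow_formula hcx hcy h p]
  have h4 : p ∣ ∑ i ∈ Finset.range p, i := by
    have h5 := Finset.sum_range_id_mul_two p
    have h6 : p ∣ (∑ i ∈ Finset.range p, i) * 2 := by
      rw [h5]
      exact dvd_mul_right _ _
    have h7 : Nat.Coprime p 2 := by
      rw [Nat.coprime_primes hp Nat.prime_two]
      omega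
    exact h7.dvd_of_dvd_mul_right h6
  obtain ⟨k, hk⟩ := h4
  rw [hk, pow_mul, h2, one_pow, mul_one]

theorem spec_pow {p : ℕ} (hp : p.Prime) (hp2 : 2 < p) {P K : Subgroup G} (hKP : K ≤ P)
    (hK : Nz P K) (hc : ⁅Fr p P, P⁆ ≤ K) {x y : G} (hx : x ∈ P) (hy : y ∈ P) :
    (x ^ p * y ^ p)⁻¹ * (x * y) ^ p ∈ K := by
  have hn : (K.subgroupOf P).Normal := hK.subgroupOf_normal
  let φ : P →* P ⧸ K.subgroupOf P := QuotientGroup.mk' (K.subgroupOf P)
  have hφ : ∀ a b : P, φ a = φ b ↔ ((a : G))⁻¹ * (b : G) ∈ K := by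
    intro a b
    exact QuotientGroup.eq (s := K.subgroupOf P) (a := a) (b := b)
  have hcen : ∀ f z : P, (f : G) ∈ Fr p P → Commute (φ f) (φ z) := by
    intro f z hf
    have h1 : ⁅(f : G), (z : G)⁆ ∈ K := hc (commutator_mem_commutator hf z.2)
    have h2 : φ ⁅f, z⁆ = 1 := by
      have : φ (⁅f, z⁆) = φ 1 := by
        rw [eq_comm, hφ]
        rw [OneMemClass.coe_one, inv_one, one_mul]
        exact h1
      rw [this, map_one]
    rw [map_commutatorElement] at h2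
    exact commutatorElement_eq_one_iff_commute.1 h2
  have h := mul_pow_prime (x := φ ⟨x, hx⟩) (y := φ ⟨y, hy⟩) hp hp2
    (by
      rw [← map_commutatorElement]
      exact hcen _ _ (comm_mem_fr hy hx))
    (by
      rw [← map_commutatorElement]
      exact hcen _ _ (comm_mem_fr hy hx))
    (by
      rw [← map_pow]
      exact hcen _ _ (pow_mem_fr hy))
  rw [← map_mul, ← map_pow, ← map_pow, ← map_pow, ← map_mul, eq_comm, hφ] at h
  exact h

theorem spec_expo {p : ℕ} (hp : p.Prime) (hp2 : 2 < p) {P A K : Subgroup G} (hKP : K ≤ P)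
    (hK : Nz P K) (hAK : Nz A K) (hAP : Nz A P) (hcomm : ⁅P, A⁆ = P) (hz : ⁅Fr p P, A⁆ ≤ K) :
    ∀ x ∈ P, x ^ p ∈ K := by
  have hc : ⁅Fr p P, P⁆ ≤ K := spec_cen hKP hK hAK hAP hcomm hz
  have hmul : ∀ x ∈ P, ∀ y ∈ P, (x ^ p * y ^ p) ∈ K → (x * y) ^ p ∈ K := by
    intro x hx y hy h
    have h1 := mul_mem h (spec_pow hp hp2 hKP hK hc hx hy)
    rwa [mul_inv_cancel_left] at h1
  let X : Subgroup G :=
    { carrier := {x | x ∈ P ∧ x ^ p ∈ K}
      mul_mem' := fun {a b} ha hb => ⟨mul_mem ha.1 hb.1, hmul a ha.1 b hb.1 (mul_mem ha.2 hb.2)⟩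
      one_mem' := ⟨one_mem _, by rw [one_pow]; exact one_mem _⟩
      inv_mem' := fun {a} ha => ⟨inv_mem ha.1, by rw [inv_pow]; exact inv_mem ha.2⟩ }
  have hX : ⁅P, A⁆ ≤ X := by
    rw [commutator_le]
    intro x hx g hg
    have h1 : g * x⁻¹ * g⁻¹ ∈ P := hAP g hg _ (inv_mem hx)
    have h2 : ⁅x, g⁆ = x * (g * x⁻¹ * g⁻¹) := by
      rw [commutatorElement_def]
      group
    rw [h2]
    refine ⟨mul_mem hx h1, hmul x hx _ h1 ?_⟩
    have h3 : x ^ p * (g * x⁻¹ * g⁻¹) ^ p = ⁅x ^ p, g⁆ := by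
      rw [conj_pow, commutatorElement_def, inv_pow]
      group
    rw [h3]
    exact hz (commutator_mem_commutator (pow_mem_fr hx) hg)
  intro x hx
  rw [hcomm] at hX
  exact (hX hx).2

end Pool.Agent.Work.MP_b44cb1_al
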