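import Pool.Agent.Work.MP_b44cb1_al.Full.MT.Repl
import Pool.Agent.Work.MP_b44cb1_al.Full.MT.Dk
import Pool.Agent.Work.MP_b44cb1_al.Full.MT.Spec
import Pool.Agent.Work.MP_b44cb1_al.Full.Ty.AL

/-!
# MT/Irr  (size M)  : minimal towers are `MTow`

`M : MinT P p n`, `k_i := kd P i (n-1-i)`; `Gs P (i+1)` normalises `k_i` (`kd_nz`), `¬ P i ≤ k_i` (`not_le_kd`),
`Ech P i = P i`, `⁅P (i+1), P i⁆ = P (i+1)` (`comm_eq'`).
* `irr'`: `R ≤ P i` invariant under `Gs P i`, suppose `¬ R ≤ Fr (p i) (P i)` and `R ≠ P i`. `R₁ := R ⊔ Fr` is invariant,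
  `R₁ ≠ P i` (K6: `P i ≤ R ⊔ Fr` gives `R = P i`), `Fr < R₁`. K7 gives an invariant complement `R'`:
  `R₁ ⊔ R' = P i`, `R₁ ⊓ R' = Fr`; `R' ≠ P i` (else `R₁ = R₁ ⊓ P i = Fr`). For `i ≥ 1`: `⁅R₁, P (i-1)⁆ ≤ k_i` and
  `⁅R', P (i-1)⁆ ≤ k_i` (`M.repl`); `P i` normalises `k_i`, every element of `P i = R₁ ⊔ R'` is a product `a b`
  (`R'` is normal in `P i` as it contains `Fr ≥ ⁅P i, P i⁆`) and `⁅a b, g⁆ = a ⁅b,g⁆ a⁻¹ ⁅a,g⁆`; so
  `P i = ⁅P i, P (i-1)⁆ ≤ k_i`, contradiction. For `i = 0`: `R₁, R' ≤ k_0` by `M.repl_zero`, so `P 0 ≤ k_0`.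
* `kd_fr`: `k_i ≤ Fr (p i) (P i)`: `irr'` for `R = k_i` (invariant under `Gs P (i+1) ≥ Gs P i`, not equal to `P i`).
* `kd_eq` (`i + 1 < n`): `k_i = Kr P i`. `n-1-i = (n-1-(i+1)) + 1`, `mem_kd_succ`: `x ∈ k_i ↔ x ∈ P i ∧
  ∀ y ∈ P (i+1), x y x⁻¹ y⁻¹ ∈ k_(i+1)`. `Kr P i ≤ k_i` is clear. If `x ∈ k_i` then `x y x⁻¹ y⁻¹ ∈ k_(i+1) ≤ Fr (P (i+1))`,
  so `x` centralises `P (i+1)` by K5 (`x` is a `p i`-element, `p i ≠ p (i+1)`).
* `mtow`: `nontriv`: `M.nontriv`; `comm`; `irr`; `kfr` by `kd_fr`, `kd_eq`; `zfr`: `R = Fr (p i) (P i) ≠ P i` (K6, `nontriv`),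
  invariant (`nz_fr`), `M.repl`, `kd_eq`. `cen`, `expo`: `spec_cen`, `spec_expo` with `P := P i`, `A := P (i-1)`,
  `K := Kr P i` (`comm` gives `⁅P i, P (i-1)⁆ = P i`; `P (i-1) ≤ Gs P i` normalises `P i` and `Kr P i` (`nz_kr`)).
  `zen`: `R := {x ∈ P i | ∀ y ∈ P i, ⁅x,y⁆ ∈ Kr P i}` is a subgroup (`cmod (P i) (P i) (Kr P i)`, as `P i` normalises `P i`
  and `Kr P i`), normalised by `Gs P i`, different from `P i` as `¬ ⁅P i, P i⁆ ≤ Kr P i`; so `R ≤ Fr` by `irr'`.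
-/

set_option autoImplicit false

namespace Pool.Agent.Work.MP_b44cb1_al

open Subgroup
open scoped commutatorElement

/-- KIT lemma K7 for the group `G`. -/
def K7p (G : Type*) [Group G] : Prop :=
  ∀ (p : ℕ) (P R L : Subgroup G), p.Prime → IsPGroup p P → Fr p P ≤ R → R ≤ P → Nz L P → Nz L R →
    ¬ p ∣ Nat.card L → ∃ R' : Subgroup G, Fr p P ≤ R' ∧ R' ≤ P ∧ Nz L R' ∧ R ⊔ R' = P ∧
      R ⊓ R' = Fr p P

variable {G : Type*} [Group G] [Finite G] {P : ℕ → Subgroup G} {p : ℕ → ℕ} {n : ℕ}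

private theorem mem_sup_nz' {H : Type*} [Group H] {A B : Subgroup H} (h : Nz A B) {g : H}
    (hg : g ∈ A ⊔ B) : ∃ a ∈ A, ∃ b ∈ B, g = a * b := by
  let K : Subgroup H :=
    { carrier := {g | ∃ a ∈ A, ∃ b ∈ B, g = a * b}
      one_mem' := ⟨1, one_mem _, 1, one_mem _, by simp⟩
      mul_mem' := by
        rintro _ _ ⟨a, ha, b, hb, rfl⟩ ⟨a', ha', b', hb', rfl⟩
        refine ⟨a * a', mul_mem ha ha', (a'⁻¹ * b * a') * b', mul_mem ?_ hb', by group⟩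
        have := h a'⁻¹ (inv_mem ha') b hb
        rwa [inv_inv] at this
      inv_mem' := by
        rintro _ ⟨a, ha, b, hb, rfl⟩
        exact ⟨a⁻¹, inv_mem ha, a * b⁻¹ * a⁻¹, h a ha _ (inv_mem hb), by group⟩ }
  have hK : A ⊔ B ≤ K := by
    refine sup_le (fun a ha => ⟨a, ha, 1, one_mem _, by simp⟩)
      (fun b hb => ⟨1, one_mem _, b, hb, by simp⟩)
  exact hK hg

theorem MinT.irr' (M : MinT P p n) (h4 : K4p G) (h6 : K6p G) (h7 : K7p G) {i : ℕ} (hi : i < n)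
    {R : Subgroup G} (hR : R ≤ P i) (hn : Nz (Gs P i) R) :
    R = P i ∨ R ≤ Fr (p i) (P i) := by
  by_contra hcon
  push Not at hcon
  obtain ⟨hne, hnF⟩ := hcon
  have T : WTow P p n := M.toWTow
  have hFP : Fr (p i) (P i) ≤ P i := fr_le _ _
  have hR₁ : R ⊔ Fr (p i) (P i) ≤ P i := sup_le hR hFP
  have hn₁ : Nz (Gs P i) (R ⊔ Fr (p i) (P i)) := hn.sup (nz_fr (p i) (T.norm i hi))
  have hne₁ : R ⊔ Fr (p i) (P i) ≠ P i := fun h =>
    hne (h6 (p i) (P i) R (T.prime i hi) (T.pgrp i hi) hR h.ge)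
  obtain ⟨R', hFR', hR'P, hnR', hsup, hinf⟩ := h7 (p i) (P i) (R ⊔ Fr (p i) (P i)) (Gs P i)
    (T.prime i hi) (T.pgrp i hi) le_sup_right hR₁ (T.norm i hi) hn₁ (T.cop i hi)
  have hne' : R' ≠ P i := by
    intro h
    rw [h, inf_eq_left.2 hR₁] at hinf
    exact hnF (le_sup_left.trans hinf.le)
  apply M.not_le_kd h4 hi
  rcases i with _ | i
  · have a1 := M.repl_zero (by omega) hR₁ hne₁
    have a2 := M.repl_zero (by omega) hR'P hne'
    rw [← hsup, Nat.sub_zero]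
    exact sup_le a1 a2
  · have a1 := M.repl h4 (by omega) hi hR₁ hn₁ hne₁
    have a2 := M.repl h4 (by omega) hi hR'P hnR' hne'
    have hkn : Nz (Gs P (i + 1 + 1)) (kd P (i + 1) (n - 1 - (i + 1))) := T.kd_nz (by omega)
    have hPn : Nz (P (i + 1)) R' := by
      intro g hg x hx
      have e : g * x * g⁻¹ = ⁅g, x⁆ * x := by
        rw [commutatorElement_def]
        group
      rw [e]
      exact mul_mem (hFR' (comm_mem_fr hg (hR'P hx))) hx
    have hc := M.comm_eq' h4 (i := i) hi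
    rw [← hc, commutator_le]
    intro g hg h hh
    rw [← hsup] at hg
    obtain ⟨a, ha, b, hb, rfl⟩ := mem_sup_nz' (hPn.mono hR₁) hg
    have e : ⁅a * b, h⁆ = a * ⁅b, h⁆ * a⁻¹ * ⁅a, h⁆ := by
      rw [commutatorElement_def, commutatorElement_def, commutatorElement_def]
      group
    rw [e]
    refine mul_mem (hkn a (le_gs' P (Nat.lt_succ_self _) (hR₁ ha)) _ ?_) ?_
    · exact a2 (commutator_mem_commutator hb hh)
    · exact a1 (commutator_mem_commutator ha hh)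

theorem MinT.kd_fr (M : MinT P p n) (h4 : K4p G) (h6 : K6p G) (h7 : K7p G) {i : ℕ} (hi : i < n) :
    kd P i (n - 1 - i) ≤ Fr (p i) (P i) := by
  have T : WTow P p n := M.toWTow
  rcases M.irr' h4 h6 h7 hi (T.kd_le (by omega) : kd P i (n - 1 - i) ≤ P i)
    ((T.kd_nz (by omega)).mono (gs_mono' P (Nat.le_succ i))) with h | h
  · exact absurd h.ge (M.not_le_kd h4 hi)
  · exact h

theorem MinT.kd_eq (M : MinT P p n) (h4 : K4p G) (h5 : K5p G) (h6 : K6p G) (h7 : K7p G) {i : ℕ}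
    (hi : i + 1 < n) : kd P i (n - 1 - i) = Kr P i := by
  have T : WTow P p n := M.toWTow
  have hd : n - 1 - i = (n - 1 - (i + 1)) + 1 := by omega
  have hF := M.kd_fr h4 h6 h7 hi
  ext x
  rw [hd, T.mem_kd_succ (by omega)]
  constructor
  · rintro ⟨hx, h⟩
    have h1 : x ∈ Dk P (i + 1) :=
      T.mem_dk h5 hi (le_gs' P (Nat.lt_succ_self i) hx) (fun v hv => hF (h v hv))
    exact ⟨hx, h1.2⟩
  · intro hx
    refine ⟨kr_le P i hx, fun y hy => ?_⟩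
    have h1 : x * y * x⁻¹ * y⁻¹ = 1 := by
      rw [kr_comm hx hy]
      group
    rw [h1]
    exact one_mem _

theorem MinT.mtow (M : MinT P p n) (h4 : K4p G) (h5 : K5p G) (h6 : K6p G) (h7 : K7p G)
    (hodd : ∀ i < n, 2 < p i) : MTow P p n := by
  have T : WTow P p n := M.toWTow
  have hkfr : ∀ i, i + 1 < n → Kr P i ≤ Fr (p i) (P i) := by
    intro i hi
    rw [← M.kd_eq h4 h5 h6 h7 hi]
    exact M.kd_fr h4 h6 h7 (by omega)
  have hcomm : ∀ i, i + 1 < n → ⁅P (i + 1), P i⁆ = P (i + 1) := fun i hi => M.comm_eq' h4 hi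
  have hcomm' : ∀ i, 1 ≤ i → i + 1 < n → ⁅P i, P (i - 1)⁆ = P i := by
    intro i h1 hi
    obtain ⟨k, rfl⟩ := Nat.exists_eq_succ_of_ne_zero (by omega : i ≠ 0)
    exact hcomm k (by omega)
  have hzfr : ∀ i, 1 ≤ i → i + 1 < n → ⁅Fr (p i) (P i), P (i - 1)⁆ ≤ Kr P i := by
    intro i h1 hi
    rw [← M.kd_eq h4 h5 h6 h7 hi]
    apply M.repl h4 h1 (by omega) (fr_le _ _) (nz_fr (p i) (T.norm i (by omega)))
    intro h
    have := h6 (p i) (P i) ⊥ (T.prime i (by omega)) (T.pgrp i (by omega)) bot_le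
      (h.ge.trans le_sup_right)
    exact M.nontriv (by omega) this.symm
  have hnzK : ∀ i, i + 1 < n → Nz (P i) (Kr P i) := fun i hi =>
    (T.nz_kr hi).mono (le_gs' P (Nat.lt_succ_self i))
  have hnzA : ∀ i, 1 ≤ i → i + 1 < n → Nz (P (i - 1)) (Kr P i) := fun i h1 hi =>
    (T.nz_kr hi).mono (le_gs' P (by omega))
  have hnzP : ∀ i, 1 ≤ i → i + 1 < n → Nz (P (i - 1)) (P i) := fun i h1 hi =>
    (T.norm i (by omega)).mono (le_gs' P (by omega))
  refine { toWTow := T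
           nontriv := fun i hi => M.nontriv hi
           comm := hcomm
           irr := fun i hi R hR hn => M.irr' h4 h6 h7 hi hR hn
           kfr := hkfr
           zfr := hzfr
           cen := fun i h1 hi => spec_cen (kr_le P i) (hnzK i hi) (hnzA i h1 hi) (hnzP i h1 hi)
             (hcomm' i h1 hi) (hzfr i h1 hi)
           expo := fun i h1 hi => spec_expo (T.prime i (by omega)) (hodd i (by omega)) (kr_le P i)
             (hnzK i hi) (hnzA i h1 hi) (hnzP i h1 hi) (hcomm' i h1 hi) (hzfr i h1 hi)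
           zen := ?_ }
  intro i h1 hi hnab x hx hxy
  have hmem : ∀ z, z ∈ cmod (P i) (P i) (Kr P i) ↔
      z ∈ P i ∧ ∀ y ∈ P i, z * y * z⁻¹ * y⁻¹ ∈ Kr P i := by
    intro z
    rw [mem_cmod]
    constructor
    · rintro ⟨hz, -, -, h⟩
      exact ⟨hz, h⟩
    · rintro ⟨hz, h⟩
      refine ⟨hz, fun y hy => ⟨?_, ?_⟩, fun y hy => ⟨?_, ?_⟩, h⟩
      · exact mul_mem (mul_mem hz hy) (inv_mem hz)
      · exact mul_mem (mul_mem (inv_mem hz) hy) hz
      · exact hnzK i hi z hz y hy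
      · have := hnzK i hi z⁻¹ (inv_mem hz) y hy
        rwa [inv_inv] at this
  have hN : Nz (Gs P i) (cmod (P i) (P i) (Kr P i)) := by
    intro g hg z hz
    rw [hmem] at hz ⊢
    refine ⟨T.norm i (by omega) g hg z hz.1, fun y hy => ?_⟩
    have hy' : g⁻¹ * y * g ∈ P i := by
      have := T.norm i (by omega) g⁻¹ (inv_mem hg) y hy
      rwa [inv_inv] at this
    have h2 := hz.2 _ hy'
    have h3 := T.nz_kr hi g (gs_mono' P (Nat.le_succ i) hg) _ h2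
    have e : g * z * g⁻¹ * y * (g * z * g⁻¹)⁻¹ * y⁻¹ =
        g * (z * (g⁻¹ * y * g) * z⁻¹ * (g⁻¹ * y * g)⁻¹) * g⁻¹ := by group
    rw [e]
    exact h3
  rcases M.irr' h4 h6 h7 (by omega : i < n) (R := cmod (P i) (P i) (Kr P i))
    (fun z hz => ((hmem z).1 hz).1) hN with h | h
  · exfalso
    apply hnab
    rw [commutator_le]
    intro a ha b hb
    have h2 : a ∈ cmod (P i) (P i) (Kr P i) := by rw [h]; exact ha
    have h3 := ((hmem a).1 h2).2 b hb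
    rw [commutatorElement_def]
    exact h3
  · apply h
    rw [hmem]
    refine ⟨hx, fun y hy => ?_⟩
    have := hxy y hy
    rwa [commutatorElement_def] at this

end Pool.Agent.Work.MP_b44cb1_al
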