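import Pool.Agent.Work.MP_b44cb1_al.Full.MT.Chain

/-!
# MT/Repl  (size M)  : what minimality says about one layer

`M : MinT P p n`. Let `R ≤ P i`, `R ≠ P i`, normalised by `Gs P i`, and `Q := Function.update P i R`.
Then `Q j ≤ P j` for all `j`, `Gs Q j ≤ Gs P j`; `Q` is a weak tower by `WTow.mono`: `Gs Q j ≤ Gs P j` normalises
`Q j = P j` for `j ≠ i`, and `Gs Q i ≤ Gs P i` normalises `R`. By `M.min` the chain of `Q` is trivial
(otherwise `Q i = P i`). `Ech Q j = Ech P j` for `j < i`.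
* `repl_pos` (`1 ≤ i`): `Ech Q i = ⁅R, Ech P (i-1)⁆`, and by `ech_bot_iff` for `Q`:
  `⁅R, Ech P (i-1)⁆ ≤ kd Q i (n-1-i) ≤ kd P i (n-1-i)`. For the last inclusion: `kd Q i d` only involves
  `Q (i+1), …`, which are `P (i+1), …`, and `Q i = R ≤ P i`: use `chR_iff` for both towers instead:
  with `X = ⁅R, Ech P (i-1)⁆`, `chR Q i X d = chR P i X d` (same layers above `i`).
* `repl_zero` (`i = 0`): `Ech Q 0 = R`.
* `ech_eq`: `Ech P i = P i` for `i < n`. `i = 0` clear. For `i ≥ 1` suppose `R := Ech P i ≠ P i`.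
  `R ≤ P i` is `Gs P (i+1)`-invariant (`ech_nz`). By `repl_pos`: `⁅R, Ech P (i-1)⁆ ≤ kd P i _`. But
  `R = ⁅P i, Ech P (i-1)⁆ ≤ ⁅⁅P i, Ech P (i-1)⁆, Ech P (i-1)⁆` by the coprime commutator lemma
  K4 (`Ech P (i-1) ≤ P (i-1)` is a `p (i-1)`-group normalising the `p i`-group `P i`, the primes are
  different as `p i ∤ |Gs P i|`), hence `Ech P i ≤ kd P i (n-1-i)`, i.e. the chain of `P` is trivial.
* `comm_eq'`: `⁅P (i+1), P i⁆ = P (i+1)` for `i + 1 < n` (from `ech_eq` for `i`, `i+1`).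
* `repl`: for `1 ≤ i < n`, `R ≤ P i`, `Nz (Gs P i) R`, `R ≠ P i` : `⁅R, P (i-1)⁆ ≤ kd P i (n-1-i)`.
* `not_le_kd`: `¬ P i ≤ kd P i (n-1-i)`.
K4 is hypothesis `K4` below (block KIT, `Full/Kit`): it is passed as an argument so that this
file does not depend on the KIT.
-/

set_option autoImplicit false

namespace Pool.Agent.Work.MP_b44cb1_al

open Subgroup
open scoped commutatorElement

/-- KIT lemma K4 for the group `G`. -/
def K4p (G : Type*) [Group G] : Prop :=
  ∀ (p a : ℕ) (P A : Subgroup G), p.Prime → a.Prime → p ≠ a → IsPGroup p P → IsPGroup a A →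
    Nz A P → ⁅P, A⁆ ≤ ⁅⁅P, A⁆, A⁆

variable {G : Type*} [Group G] [Finite G] {P : ℕ → Subgroup G} {p : ℕ → ℕ} {n : ℕ}

theorem WTow.p_ne (T : WTow P p n) (hP : ∀ i < n, P i ≠ ⊥) {i j : ℕ} (hij : i < j) (hj : j < n) :
    p i ≠ p j := by
  intro h
  apply T.cop j hj
  rw [← h]
  have hi : i < n := by omega
  have : Fact (p i).Prime := ⟨T.prime i hi⟩
  have h1 : p i ∣ Nat.card (P i) := by
    obtain ⟨k, hk⟩ := (IsPGroup.iff_card.1 (T.pgrp i hi))
    have hk0 : k ≠ 0 := by
      rintro rfl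
      rw [pow_zero] at hk
      exact hP i hi (Subgroup.card_eq_one.1 hk)
    rw [hk]
    exact dvd_pow_self _ hk0
  exact h1.trans (Subgroup.card_dvd_of_le (le_gs' P hij))

theorem MinT.nontriv (M : MinT P p n) {i : ℕ} (hi : i < n) : P i ≠ ⊥ := by
  intro h
  apply M.chain
  rw [M.toWTow.ech_bot_iff hi]
  refine (M.toWTow.ech_le hi).trans ?_
  rw [h]
  exact bot_le

private theorem ech_congr {P Q : ℕ → Subgroup G} (i : ℕ) (h : ∀ j ≤ i, Q j = P j) :
    Ech Q i = Ech P i :=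
  le_antisymm (ech_mono i fun j hj => (h j hj).le) (ech_mono i fun j hj => (h j hj).ge)

private theorem chR_congr {P Q : ℕ → Subgroup G} (i : ℕ) (X : Subgroup G) (d : ℕ)
    (h : ∀ j, i < j → Q j = P j) : chR Q i X d = chR P i X d := by
  induction d with
  | zero => rfl
  | succ d ih =>
    show ⁅Q (i + 1 + d), chR Q i X d⁆ = ⁅P (i + 1 + d), chR P i X d⁆
    rw [ih, h _ (by omega)]

private theorem repl_core (M : MinT P p n) {i : ℕ} (hi : i < n) {R : Subgroup G}
    (hR : R ≤ P i) (hn : Nz (Gs P i) R) (hne : R ≠ P i) :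
    Ech (Function.update P i R) i ≤ kd P i (n - 1 - i) := by
  classical
  set Q := Function.update P i R with hQ
  have hQi : Q i = R := Function.update_self _ _ _
  have hQj : ∀ j, j ≠ i → Q j = P j := fun j hj => Function.update_of_ne hj _ _
  have hQP : ∀ j, Q j ≤ P j := by
    intro j
    by_cases hj : j = i
    · subst hj; rw [hQi]; exact hR
    · rw [hQj j hj]
  have hGs : ∀ j, Gs Q j ≤ Gs P j := by
    intro j
    rw [gs_le_iff]
    exact fun k hk => (hQP k).trans (le_gs' P hk)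
  have TQ : WTow Q p n := by
    refine M.toWTow.mono (fun j _ => hQP j) ?_
    intro j hj
    by_cases hji : j = i
    · subst hji; rw [hQi]; exact hn.mono (hGs j)
    · rw [hQj j hji]; exact (M.toWTow.norm j hj).mono (hGs j)
  have hbot : Ech Q (n - 1) = ⊥ := by
    by_contra hcon
    exact hne (hQi.symm.trans (M.min Q (fun j _ => hQP j) TQ hcon i hi))
  rw [TQ.ech_bot_iff hi, ← TQ.chR_iff (by omega) (TQ.ech_le hi),
    chR_congr i _ _ (fun j hj => hQj j (by omega)),
    M.toWTow.chR_iff (by omega) ((TQ.ech_le hi).trans (hQP i))] at hbot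
  exact hbot

private theorem ech_upd_succ (P : ℕ → Subgroup G) (i : ℕ) (R : Subgroup G) :
    Ech (Function.update P (i + 1) R) (i + 1) = ⁅R, Ech P i⁆ := by
  show ⁅Function.update P (i + 1) R (i + 1), Ech (Function.update P (i + 1) R) i⁆ = _
  rw [Function.update_self, ech_congr (P := P) (Q := Function.update P (i + 1) R) i
    (fun j hj => Function.update_of_ne (by omega) _ _)]

theorem MinT.ech_eq (M : MinT P p n) (h4 : K4p G) {i : ℕ} (hi : i < n) : Ech P i = P i := by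
  cases i with
  | zero => rfl
  | succ j =>
    by_contra hne
    have T := M.toWTow
    have h1 := repl_core M hi (T.ech_le hi) ((T.ech_nz hi).mono (gs_mono' P (Nat.le_succ _))) hne
    rw [ech_upd_succ] at h1
    have hj : j < n := by omega
    have h2 := h4 (p (j + 1)) (p j) (P (j + 1)) (Ech P j) (T.prime _ hi) (T.prime _ hj)
      (T.p_ne (fun k hk => M.nontriv hk) (Nat.lt_succ_self j) hi).symm (T.pgrp _ hi)
      ((T.pgrp j hj).to_le (T.ech_le hj))
      ((T.norm (j + 1) hi).mono ((T.ech_le hj).trans (le_gs' P (Nat.lt_succ_self j))))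
    apply M.chain
    rw [T.ech_bot_iff hi]
    exact h2.trans h1

theorem MinT.comm_eq' (M : MinT P p n) (h4 : K4p G) {i : ℕ} (hi : i + 1 < n) :
    ⁅P (i + 1), P i⁆ = P (i + 1) := by
  have h1 := M.ech_eq h4 hi
  have h2 := M.ech_eq h4 (i := i) (by omega)
  have h3 : Ech P (i + 1) = ⁅P (i + 1), Ech P i⁆ := rfl
  rw [h2] at h3
  rw [← h3, h1]

theorem MinT.repl (M : MinT P p n) (h4 : K4p G) {i : ℕ} (h1 : 1 ≤ i) (hi : i < n)
    {R : Subgroup G} (hR : R ≤ P i) (hn : Nz (Gs P i) R) (hne : R ≠ P i) :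
    ⁅R, P (i - 1)⁆ ≤ kd P i (n - 1 - i) := by
  obtain ⟨j, rfl⟩ : ∃ j, i = j + 1 := ⟨i - 1, by omega⟩
  have h2 := repl_core M hi hR hn hne
  rw [ech_upd_succ, M.ech_eq h4 (by omega)] at h2
  exact h2

theorem MinT.repl_zero (M : MinT P p n) (hn0 : 0 < n) {R : Subgroup G} (hR : R ≤ P 0)
    (hne : R ≠ P 0) : R ≤ kd P 0 (n - 1) := by
  have hn : Nz (Gs P 0) R := by
    intro g hg d hd
    have : g = 1 := hg
    subst this
    simpa using hd
  have h2 := repl_core M hn0 hR hn hne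
  have h3 : Ech (Function.update P 0 R) 0 = R := Function.update_self _ _ _
  rw [h3] at h2
  exact h2

theorem MinT.not_le_kd (M : MinT P p n) (h4 : K4p G) {i : ℕ} (hi : i < n) :
    ¬ P i ≤ kd P i (n - 1 - i) := by
  intro h
  apply M.chain
  rw [M.toWTow.ech_bot_iff hi, M.ech_eq h4 hi]
  exact h

end Pool.Agent.Work.MP_b44cb1_al
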