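import Pool.Agent.Work.MP_b44cb1_al.Full.MT.Defs

/-!
# MT/Chain  (size M)  : chains in weak towers

`T : WTow P p n`, `Gs P (i+1) = Gs P i ⊔ P i`.
* `ech_le`: `Ech P i ≤ P i`, `ech_nz`: `Gs P (i+1)` normalises `Ech P i`. Induction on `i`:
  `Ech P 0 = P 0` is normalised by `Gs P 1 = ⊥ ⊔ P 0`. Step: `E := Ech P i ≤ P i`, normalised by
  `Gs P (i+1)`; `⁅P (i+1), E⁆ ≤ P (i+1)` as `E ≤ Gs P (i+1)` normalises `P (i+1)`
  (`comm_le_left`). `Gs P (i+1)` normalises `P (i+1)` and `E` so it normalises the commutator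
  (`nz_comm`); `P (i+1)` normalises `⁅P (i+1), E⁆` (general: `y ⁅x,e⁆ y⁻¹ = ⁅y x, e⁆ ⁅y, e⁆⁻¹` for
  `x, y ∈ P (i+1)`, `e ∈ E`; use `nz_closure`-like induction or `Subgroup.commutator` lemmas; in
  Mathlib: `Subgroup.commutator_normal` is for normal subgroups; the subgroup `⁅A,B⁆` is normalised
  by `A`: `Subgroup.le_normalizer_commutator_left` or similar if it exists).
* `ech_mono`: induction with `commutator_mono`.
* `ech_split`: `Ech P (i + d) = chR P i (Ech P i) d`, by induction on `d` (`i + (d+1) = i + 1 + d`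
  definitionally up to `Nat.add` rewriting).
* `ech_succ`: `Ech P (i + 1 + d) = chR P (i+1) ⁅P (i+1), Ech P i⁆ d`.
* `kd_le`, `kd_nz`: for `i + d < n` : `kd P i d ≤ P i` and `Gs P (i+1)` normalises `kd P i d`,
  induction on `d`: for `g ∈ Gs P (i+1)`, `x ∈ kd P i (d+1)`: `g x g⁻¹ ∈ P i` (`gs_nz_self`); `g` normalises
  `P (i+1)` (as `Gs P (i+1)` does) and `K := kd P (i+1) d` (`Gs P (i+1) ≤ Gs P (i+2)`), so does `x ∈ P i`
  and `g x g⁻¹`; and `(g x g⁻¹) y (g x g⁻¹)⁻¹ y⁻¹ = g (x y' x⁻¹ y'⁻¹) g⁻¹` with `y' = g⁻¹ y g`.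
* `mem_kd_succ`: for `i + d + 1 < n`: `x ∈ kd P i (d+1) ↔ x ∈ P i ∧ ∀ y ∈ P (i+1),
  x y x⁻¹ y⁻¹ ∈ kd P (i+1) d` (the normalising conditions are automatic).
* `chR_iff`: for `i + d < n` and `X ≤ P i`: `chR P i X d = ⊥ ↔ X ≤ kd P i d`. Induction on `d`
  (all `i`, `X`): one needs `chR P i X (d+1) = chR P (i+1) ⁅P (i+1), X⁆ d` (`chR_succ'`, induction on
  `d`), and `⁅P (i+1), X⁆ ≤ kd P (i+1) d ↔ X ≤ kd P i (d+1)` (`commutator_le`, `mem_kd_succ`;
  `⁅y,x⁆ = y x y⁻¹ x⁻¹` is the inverse of `x y x⁻¹ y⁻¹`, and `⁅P (i+1), X⁆ ≤ P (i+1)`).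
* `ech_bot_iff`: for `i < n`: `Ech P (n-1) = ⊥ ↔ Ech P i ≤ kd P i (n-1-i)` (`ech_split`, `chR_iff`).
-/

set_option autoImplicit false

namespace Pool.Agent.Work.MP_b44cb1_al

open Subgroup
open scoped commutatorElement

variable {G : Type*} [Group G] {P : ℕ → Subgroup G} {p : ℕ → ℕ} {n : ℕ}

private theorem nz_comm_left (A B : Subgroup G) : Nz A ⁅A, B⁆ := by
  rw [Subgroup.commutator_def]
  intro y hy d hd
  induction hd using closure_induction with
  | mem z hz =>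
    obtain ⟨x, hx, e, he, rfl⟩ := hz
    have h1 : y * ⁅x, e⁆ * y⁻¹ = ⁅y * x, e⁆ * (⁅y, e⁆)⁻¹ := by
      simp only [commutatorElement_def]; group
    rw [h1]
    exact mul_mem (subset_closure ⟨y * x, mul_mem hy hx, e, he, rfl⟩)
      (inv_mem (subset_closure ⟨y, hy, e, he, rfl⟩))
  | one => simp
  | mul a b _ _ ha hb =>
    have : y * (a * b) * y⁻¹ = (y * a * y⁻¹) * (y * b * y⁻¹) := by group
    rw [this]; exact mul_mem ha hb
  | inv a _ ha =>
    have : y * a⁻¹ * y⁻¹ = (y * a * y⁻¹)⁻¹ := by group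
    rw [this]; exact inv_mem ha

theorem WTow.ech_le (T : WTow P p n) {i : ℕ} (hi : i < n) : Ech P i ≤ P i := by
  induction i with
  | zero => exact le_rfl
  | succ i ih =>
    have h1 := ih (by omega)
    show ⁅P (i + 1), Ech P i⁆ ≤ P (i + 1)
    exact comm_le_left ((T.norm (i + 1) hi).mono (h1.trans (le_gs' P (Nat.lt_succ_self i))))

theorem WTow.ech_nz (T : WTow P p n) {i : ℕ} (hi : i < n) : Nz (Gs P (i + 1)) (Ech P i) := by
  induction i with
  | zero => exact T.gs_nz_self hi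
  | succ i ih =>
    have h1 := ih (by omega)
    show Nz (Gs P (i + 1 + 1)) ⁅P (i + 1), Ech P i⁆
    rw [nz_iff, gs_succ]
    exact sup_le (nz_iff.1 (nz_comm (T.norm (i + 1) hi) h1)) (nz_iff.1 (nz_comm_left _ _))

theorem ech_mono {P Q : ℕ → Subgroup G} (i : ℕ) (h : ∀ j ≤ i, Q j ≤ P j) :
    Ech Q i ≤ Ech P i := by
  induction i with
  | zero => exact h 0 le_rfl
  | succ i ih =>
    exact commutator_mono (h (i + 1) le_rfl) (ih fun j hj => h j (by omega))

theorem ech_split (P : ℕ → Subgroup G) (i d : ℕ) : Ech P (i + d) = chR P i (Ech P i) d := by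
  induction d with
  | zero => rfl
  | succ d ih =>
    show ⁅P (i + d + 1), Ech P (i + d)⁆ = ⁅P (i + 1 + d), chR P i (Ech P i) d⁆
    rw [ih, Nat.add_right_comm]

theorem chR_succ' (P : ℕ → Subgroup G) (i d : ℕ) (X : Subgroup G) :
    chR P i X (d + 1) = chR P (i + 1) ⁅P (i + 1), X⁆ d := by
  induction d with
  | zero => rfl
  | succ d ih =>
    show ⁅P (i + 1 + (d + 1)), chR P i X (d + 1)⁆ =
      ⁅P (i + 1 + 1 + d), chR P (i + 1) ⁅P (i + 1), X⁆ d⁆
    rw [ih]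
    have : i + 1 + (d + 1) = i + 1 + 1 + d := by omega
    rw [this]

theorem WTow.kd_le (T : WTow P p n) {i d : ℕ} (hi : i + d < n) : kd P i d ≤ P i := by
  cases d with
  | zero => exact bot_le
  | succ d => exact fun x hx => hx.1

private theorem mem_kd_aux (T : WTow P p n) {i d : ℕ} (hi : i + d + 1 < n)
    (hK : Nz (Gs P (i + 1 + 1)) (kd P (i + 1) d)) {x : G} :
    x ∈ kd P i (d + 1) ↔ x ∈ P i ∧ ∀ y ∈ P (i + 1), x * y * x⁻¹ * y⁻¹ ∈ kd P (i + 1) d := by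
  constructor
  · intro h
    exact ⟨h.1, h.2.2.2⟩
  · rintro ⟨h1, h2⟩
    have hx : x ∈ Gs P (i + 1) := le_gs' P (Nat.lt_succ_self i) h1
    have hx' : x ∈ Gs P (i + 1 + 1) := gs_mono' P (Nat.le_succ _) hx
    refine ⟨h1, fun y hy => ⟨?_, ?_⟩, fun y hy => ⟨?_, ?_⟩, h2⟩
    · exact T.norm (i + 1) (by omega) x hx y hy
    · have := T.norm (i + 1) (by omega) x⁻¹ (inv_mem hx) y hy
      rwa [inv_inv] at this
    · exact hK x hx' y hy
    · have := hK x⁻¹ (inv_mem hx') y hy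
      rwa [inv_inv] at this

theorem WTow.kd_nz (T : WTow P p n) {i d : ℕ} (hi : i + d < n) :
    Nz (Gs P (i + 1)) (kd P i d) := by
  induction d generalizing i with
  | zero =>
    intro g _ x hx
    have h1 : x = 1 := hx
    rw [h1]
    simpa using one_mem (kd P i 0)
  | succ d ih =>
    have hK := ih (i := i + 1) (by omega)
    intro g hg x hx
    rw [mem_kd_aux T (by omega) hK] at hx ⊢
    obtain ⟨h1, h2⟩ := hx
    refine ⟨T.gs_nz_self (by omega) g hg x h1, fun y hy => ?_⟩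
    have hy' : g⁻¹ * y * g ∈ P (i + 1) := by
      have := T.norm (i + 1) (by omega) g⁻¹ (inv_mem hg) y hy
      rwa [inv_inv] at this
    have h3 := h2 _ hy'
    have h4 := hK g (gs_mono' P (Nat.le_succ _) hg) _ h3
    have h5 : g * x * g⁻¹ * y * (g * x * g⁻¹)⁻¹ * y⁻¹ =
        g * (x * (g⁻¹ * y * g) * x⁻¹ * (g⁻¹ * y * g)⁻¹) * g⁻¹ := by group
    rw [h5]
    exact h4

theorem WTow.mem_kd_succ (T : WTow P p n) {i d : ℕ} (hi : i + d + 1 < n) {x : G} :
    x ∈ kd P i (d + 1) ↔ x ∈ P i ∧ ∀ y ∈ P (i + 1), x * y * x⁻¹ * y⁻¹ ∈ kd P (i + 1) d :=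
  mem_kd_aux T hi (T.kd_nz (i := i + 1) (by omega))

theorem WTow.chR_iff (T : WTow P p n) {i d : ℕ} (hi : i + d < n) {X : Subgroup G} (hX : X ≤ P i) :
    chR P i X d = ⊥ ↔ X ≤ kd P i d := by
  induction d generalizing i X with
  | zero => exact le_bot_iff.symm
  | succ d ih =>
    have hXP : ⁅P (i + 1), X⁆ ≤ P (i + 1) :=
      comm_le_left ((T.norm (i + 1) (by omega)).mono (hX.trans (le_gs' P (Nat.lt_succ_self i))))
    rw [chR_succ', ih (by omega) hXP, commutator_le]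
    constructor
    · intro h x hx
      rw [T.mem_kd_succ (by omega)]
      refine ⟨hX hx, fun y hy => ?_⟩
      have h1 := inv_mem (h y hy x hx)
      have h2 : (⁅y, x⁆)⁻¹ = x * y * x⁻¹ * y⁻¹ := by
        simp only [commutatorElement_def]; group
      rwa [h2] at h1
    · intro h y hy x hx
      have h1 := inv_mem (((T.mem_kd_succ (by omega)).1 (h hx)).2 y hy)
      have h2 : (x * y * x⁻¹ * y⁻¹)⁻¹ = ⁅y, x⁆ := by
        simp only [commutatorElement_def]; group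
      rwa [h2] at h1

theorem WTow.ech_bot_iff (T : WTow P p n) {i : ℕ} (hi : i < n) :
    Ech P (n - 1) = ⊥ ↔ Ech P i ≤ kd P i (n - 1 - i) := by
  have h1 : n - 1 = i + (n - 1 - i) := by omega
  have h2 : Ech P (n - 1) = chR P i (Ech P i) (n - 1 - i) := by
    rw [← ech_split, ← h1]
  rw [h2]
  exact T.chR_iff (by omega) (T.ech_le hi)

end Pool.Agent.Work.MP_b44cb1_al
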