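import Pool.Agent.Work.MP_b44cb1_al.Full.Base

/-!
# MT/Defs : chains and relative kernels in a weak tower (definitions, facts proved)
-/

set_option autoImplicit false

namespace Pool.Agent.Work.MP_b44cb1_al

open Subgroup
open scoped commutatorElement

variable {G : Type*} [Group G]

/-- Elements of `A` which normalise `P` and `K` and act trivially on `P / K`. -/
def cmod (A P K : Subgroup G) : Subgroup G where
  carrier := {x | x ∈ A ∧ (∀ y ∈ P, x * y * x⁻¹ ∈ P ∧ x⁻¹ * y * x ∈ P) ∧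
    (∀ y ∈ K, x * y * x⁻¹ ∈ K ∧ x⁻¹ * y * x ∈ K) ∧ ∀ y ∈ P, x * y * x⁻¹ * y⁻¹ ∈ K}
  one_mem' := by
    refine ⟨one_mem _, fun y hy => ?_, fun y hy => ?_, fun y hy => ?_⟩ <;> simp [hy]
  mul_mem' := by
    rintro a b ⟨ha, ha1, ha2, ha3⟩ ⟨hb, hb1, hb2, hb3⟩
    refine ⟨mul_mem ha hb, fun y hy => ⟨?_, ?_⟩, fun y hy => ⟨?_, ?_⟩, fun y hy => ?_⟩
    · have := (ha1 _ (hb1 y hy).1).1; simpa [mul_assoc] using this
    · have := (hb1 _ (ha1 y hy).2).2; simpa [mul_assoc] using this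
    · have := (ha2 _ (hb2 y hy).1).1; simpa [mul_assoc] using this
    · have := (hb2 _ (ha2 y hy).2).2; simpa [mul_assoc] using this
    · have h1 := (ha2 _ (hb3 y hy)).1
      have h2 := ha3 y hy
      have : a * b * y * (a * b)⁻¹ * y⁻¹ = (a * (b * y * b⁻¹ * y⁻¹) * a⁻¹) * (a * y * a⁻¹ * y⁻¹) := by
        group
      rw [this]; exact mul_mem h1 h2
  inv_mem' := by
    rintro a ⟨ha, ha1, ha2, ha3⟩
    refine ⟨inv_mem ha, fun y hy => ⟨?_, ?_⟩, fun y hy => ⟨?_, ?_⟩, fun y hy => ?_⟩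
    · simpa using (ha1 y hy).2
    · simpa using (ha1 y hy).1
    · simpa using (ha2 y hy).2
    · simpa using (ha2 y hy).1
    · have h1 := (ha2 _ (inv_mem (ha3 y hy))).2
      have : a⁻¹ * y * a⁻¹⁻¹ * y⁻¹ = a⁻¹ * (a * y * a⁻¹ * y⁻¹)⁻¹ * a := by group
      rw [this]; exact h1

theorem mem_cmod {A P K : Subgroup G} {x : G} : x ∈ cmod A P K ↔ x ∈ A ∧
    (∀ y ∈ P, x * y * x⁻¹ ∈ P ∧ x⁻¹ * y * x ∈ P) ∧
    (∀ y ∈ K, x * y * x⁻¹ ∈ K ∧ x⁻¹ * y * x ∈ K) ∧ ∀ y ∈ P, x * y * x⁻¹ * y⁻¹ ∈ K := Iff.rfl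

/-- `kd P i d` : the elements `x` of `P i` with `[P (i+d), …, [P (i+1), x]] = 1`. -/
def kd (P : ℕ → Subgroup G) : ℕ → ℕ → Subgroup G
  | _, 0 => ⊥
  | i, (d + 1) => cmod (P i) (P (i + 1)) (kd P (i + 1) d)

/-- `[P (i+d), …, [P (i+1), X]]`. -/
def chR (P : ℕ → Subgroup G) (i : ℕ) (X : Subgroup G) : ℕ → Subgroup G
  | 0 => X
  | (d + 1) => ⁅P (i + 1 + d), chR P i X d⁆

/-- The minimality property used for towers: the chain of the tower is nontrivial, and it becomes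
trivial if one layer is replaced by a proper subgroup (invariant under the previous layers). -/
structure MinT (P : ℕ → Subgroup G) (p : ℕ → ℕ) (n : ℕ) : Prop extends WTow P p n where
  chain : Ech P (n - 1) ≠ ⊥
  min : ∀ Q : ℕ → Subgroup G, (∀ i < n, Q i ≤ P i) → WTow Q p n → Ech Q (n - 1) ≠ ⊥ →
    ∀ i < n, Q i = P i

end Pool.Agent.Work.MP_b44cb1_al
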