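import Pool.Agent.Work.MP_b44cb1_al.Full.MT.Defs

/-!
# MT/Exist  (size S-M)  : existence of minimal towers

Choose, among the sequences `Q` with `∀ i < n, Q i ≤ P i`, `WTow Q p n`, `Ech Q (n-1) ≠ ⊥`, one for which
`∑ i ∈ range n, Nat.card (Q i)` is minimal (`WellFounded.has_min` / `Nat.find` for the measure). If `Q'`
satisfies the three conditions for `Q` (`Q' i ≤ Q i` for `i < n`) then every `Nat.card (Q' i) ≤ Nat.card (Q i)`
and the sums are equal by minimality, so the cardinalities are equal and `Q' i = Q i`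
(`Subgroup.eq_of_le_of_card_ge`).
-/

set_option autoImplicit false

namespace Pool.Agent.Work.MP_b44cb1_al

open Subgroup

theorem exists_minT {G : Type*} [Group G] [Finite G] {P : ℕ → Subgroup G} {p : ℕ → ℕ} {n : ℕ}
    (T : WTow P p n) (hc : Ech P (n - 1) ≠ ⊥) :
    ∃ Q : ℕ → Subgroup G, (∀ i < n, Q i ≤ P i) ∧ MinT Q p n := by
  let S : Set (ℕ → Subgroup G) :=
    {Q | (∀ i < n, Q i ≤ P i) ∧ WTow Q p n ∧ Ech Q (n - 1) ≠ ⊥}
  have hS : S.Nonempty := ⟨P, fun i _ => le_rfl, T, hc⟩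
  let m : (ℕ → Subgroup G) → ℕ := fun Q => ∑ i ∈ Finset.range n, Nat.card (Q i)
  obtain ⟨Q, ⟨hQ1, hQ2, hQ3⟩, hmin⟩ := (InvImage.wf m Nat.lt_wfRel.wf).has_min S hS
  refine ⟨Q, hQ1, ?_⟩
  refine { toWTow := hQ2, chain := hQ3, min := ?_ }
  intro Q' hQ' hT' hc' i hi
  have h1 : Q' ∈ S := ⟨fun j hj => (hQ' j hj).trans (hQ1 j hj), hT', hc'⟩
  have h2 : ¬ m Q' < m Q := hmin Q' h1
  have hle : ∀ j ∈ Finset.range n, Nat.card (Q' j) ≤ Nat.card (Q j) := fun j hj =>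
    Subgroup.card_le_of_le (hQ' j (Finset.mem_range.1 hj))
  have h3 : m Q' = m Q := le_antisymm (Finset.sum_le_sum hle) (not_lt.1 h2)
  have h4 := (Finset.sum_eq_sum_iff_of_le hle).1 h3 i (Finset.mem_range.2 hi)
  exact Subgroup.eq_of_le_of_card_ge (hQ' i hi) h4.ge

end Pool.Agent.Work.MP_b44cb1_al
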